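import Mathlib
import Pool.Agent.R682.Triangle

/-!
# Generalized triangle groups with only one alternating quotient

For `p, q, r = 2, 3, 5` there are infinitely many commutator words `u` for which `n = 5` is the
only admissible degree; the trivial word is one of them.
-/

set_option autoImplicit false

namespace Pool.Agent.Results.MP_73c65d_al.FinitelyManyDegrees

/-- The free group `F = F(x, y, z)`; `x`, `y`, `z` are `FreeGroup.of 0`, `FreeGroup.of 1`,
`FreeGroup.of 2`. -/
abbrev F := FreeGroup (Fin 3)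

/-- The product `x y z` in `F`. -/
def xyz : F := FreeGroup.of 0 * FreeGroup.of 1 * FreeGroup.of 2

/-- `n` is admissible for `p, q, r, u`: `n ≥ 3` and there are `ξ, η, ζ` generating `A_n` with
`ξ ^ p = η ^ q = ζ ^ r = ξ η ζ u(ξ, η, ζ) = 1`. -/
def Admissible (p q r : ℕ) (u : F) (n : ℕ) : Prop :=
  3 ≤ n ∧ ∃ ξ η ζ : alternatingGroup (Fin n),
    Subgroup.closure {ξ, η, ζ} = ⊤ ∧ ξ ^ p = 1 ∧ η ^ q = 1 ∧ ζ ^ r = 1 ∧
      ξ * η * ζ * FreeGroup.lift ![ξ, η, ζ] u = 1

/-- An automorphism of `F` which sends each of `x`, `y`, `z` to a conjugate of itself. -/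
def IsPureSymmetric (φ : F ≃* F) : Prop :=
  ∀ i : Fin 3, IsConj (FreeGroup.of i) (φ (FreeGroup.of i))

/-- The word `u_φ = (x y z)⁻¹ φ(x y z)`, for which the relator `x y z u` is `φ(x y z)`. -/
def word (φ : F ≃* F) : F := xyz⁻¹ * φ xyz

/-! ### the bound -/

lemma card_le {G : Type} [Group G] [Finite G] (ξ η ζ : G) (hcl : Subgroup.closure {ξ, η, ζ} = ⊤)
    (h2 : ξ ^ 2 = 1) (h3 : η ^ 3 = 1) (h5 : ζ ^ 5 = 1) (hw : ξ * η * ζ = 1) :
    Nat.card G ≤ 60 := by
  have hz : ζ = (ξ * η)⁻¹ := eq_inv_of_mul_eq_one_right hw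
  have h5' : (ξ * η) ^ 5 = 1 := by
    have : (ζ⁻¹) ^ 5 = 1 := by rw [inv_pow, h5, inv_one]
    rwa [hz, inv_inv] at this
  obtain ⟨T, hT, hmem⟩ := Pool.Agent.R682.triangle_bound ξ η (by rw [← pow_two, h2])
    (by rw [← h3, pow_succ, pow_two]) h5'
  have htop : Subgroup.closure ({ξ, η} : Set G) = ⊤ := by
    rw [eq_top_iff, ← hcl, Subgroup.closure_le]
    intro x hx
    simp only [Set.mem_insert_iff, Set.mem_singleton_iff] at hx
    have hξ : ξ ∈ Subgroup.closure ({ξ, η} : Set G) := Subgroup.subset_closure (by simp)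
    have hη : η ∈ Subgroup.closure ({ξ, η} : Set G) := Subgroup.subset_closure (by simp)
    rcases hx with h | h | h
    · rw [h]; exact hξ
    · rw [h]; exact hη
    · rw [h, hz]; exact inv_mem (mul_mem hξ hη)
  classical
  have h1 : (Set.univ : Set G) ⊆ (T.toFinset : Set G) := by
    intro g _
    have : g ∈ T := hmem g (by rw [htop]; trivial)
    simpa using this
  have := Set.ncard_le_ncard h1 (Finset.finite_toSet _)
  rw [Set.ncard_univ, Set.ncard_coe_finset] at this
  exact this.trans ((List.toFinset_card_le T).trans hT.le)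

lemma card_alt (n : ℕ) (hn : 2 ≤ n) : 2 * Nat.card (alternatingGroup (Fin n)) = n.factorial := by
  have : Nontrivial (Fin n) := Fin.nontrivial_iff_two_le.2 hn
  have h := two_mul_card_alternatingGroup (α := Fin n)
  rw [Fintype.card_perm, Fintype.card_fin] at h
  rw [← h, Nat.card_eq_fintype_card]

lemma eq_five_of_triple {n : ℕ} (hn : 3 ≤ n) (ξ η ζ : alternatingGroup (Fin n))
    (hcl : Subgroup.closure {ξ, η, ζ} = ⊤)
    (h2 : ξ ^ 2 = 1) (h3 : η ^ 3 = 1) (h5 : ζ ^ 5 = 1) (hw : ξ * η * ζ = 1) : n = 5 := by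
  have hle := card_le ξ η ζ hcl h2 h3 h5 hw
  have hcard := card_alt n (by omega)
  by_contra hne
  rcases Nat.lt_or_ge n 5 with h | h
  · have hzeta : ζ = 1 := by
      have h1 : orderOf ζ ∣ 5 := orderOf_dvd_of_pow_eq_one h5
      have h2 : orderOf ζ ∣ Nat.card (alternatingGroup (Fin n)) := orderOf_dvd_natCard ζ
      have h4 : orderOf ζ ∣ n.factorial := h2.trans (Dvd.intro_left 2 hcard)
      have h6 : Nat.Coprime 5 n.factorial := by
        interval_cases n <;> decide
      have h7 : orderOf ζ ∣ 1 := by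
        rw [← h6]; exact Nat.dvd_gcd h1 h4
      exact orderOf_eq_one_iff.1 (Nat.dvd_one.1 h7)
    rw [hzeta, mul_one] at hw
    have h1 : ξ = η⁻¹ := eq_inv_of_mul_eq_one_left hw
    have h4 : ξ ^ 3 = 1 := by rw [h1, inv_pow, h3, inv_one]
    have hxi : ξ = 1 := by
      have : ξ ^ 3 = ξ ^ 2 * ξ := pow_succ _ _
      rw [h4, h2, one_mul] at this
      exact this.symm
    have heta : η = 1 := by rw [hxi] at h1; exact inv_eq_one.1 h1.symm
    rw [hxi, heta, hzeta] at hcl
    have hbot : (⊤ : Subgroup (alternatingGroup (Fin n))) = ⊥ := by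
      rw [← hcl]
      simp
    have h6 : Nat.card (alternatingGroup (Fin n)) = 1 := by
      rw [← Subgroup.card_top, hbot, Subgroup.card_bot]
    rw [h6] at hcard
    have : Nat.factorial 3 ≤ n.factorial := Nat.factorial_le hn
    have h7 : Nat.factorial 3 = 6 := rfl
    omega
  · have h6 : 6 ≤ n := by omega
    have : Nat.factorial 6 ≤ n.factorial := Nat.factorial_le h6
    have h7 : Nat.factorial 6 = 720 := rfl
    omega

/-! ### the icosahedral triple -/

/-- `(0 1)(2 3)` -/
def a5 : alternatingGroup (Fin 5) := ⟨Equiv.swap 0 1 * Equiv.swap 2 3, by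
  rw [Equiv.Perm.mem_alternatingGroup, map_mul, Equiv.Perm.sign_swap (by decide),
    Equiv.Perm.sign_swap (by decide)]; rfl⟩
/-- a 3-cycle -/
def b5 : alternatingGroup (Fin 5) := ⟨Equiv.swap 1 2 * Equiv.swap 2 4, by
  rw [Equiv.Perm.mem_alternatingGroup, map_mul, Equiv.Perm.sign_swap (by decide),
    Equiv.Perm.sign_swap (by decide)]; rfl⟩
/-- the inverse of the product -/
def c5 : alternatingGroup (Fin 5) := (a5 * b5)⁻¹

lemma a5_sq : a5 ^ 2 = 1 := by decide
lemma b5_cube : b5 ^ 3 = 1 := by decide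
lemma c5_five : c5 ^ 5 = 1 := by decide
lemma a5_ne : a5 ≠ 1 := by decide
lemma b5_ne : b5 ≠ 1 := by decide
lemma c5_ne : c5 ≠ 1 := by decide

lemma closure5 : Subgroup.closure {a5, b5, c5} = ⊤ := by
  set K := Subgroup.closure {a5, b5, c5} with hK
  have ha : a5 ∈ K := Subgroup.subset_closure (by simp)
  have hb : b5 ∈ K := Subgroup.subset_closure (by simp)
  have hc : c5 ∈ K := Subgroup.subset_closure (by simp)
  have oa : orderOf a5 = 2 := orderOf_eq_prime a5_sq a5_ne
  have ob : orderOf b5 = 3 := by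
    have : Fact (Nat.Prime 3) := ⟨Nat.prime_three⟩
    exact orderOf_eq_prime b5_cube b5_ne
  have oc : orderOf c5 = 5 := by
    have : Fact (Nat.Prime 5) := ⟨Nat.prime_five⟩
    exact orderOf_eq_prime c5_five c5_ne
  have d2 : orderOf a5 ∣ Nat.card K := by
    rw [← Subgroup.orderOf_mk a5 ha]; exact orderOf_dvd_natCard _
  have d3 : orderOf b5 ∣ Nat.card K := by
    rw [← Subgroup.orderOf_mk b5 hb]; exact orderOf_dvd_natCard _
  have d5 : orderOf c5 ∣ Nat.card K := by
    rw [← Subgroup.orderOf_mk c5 hc]; exact orderOf_dvd_natCard _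
  rw [oa] at d2
  rw [ob] at d3
  rw [oc] at d5
  have hcard : 2 * Nat.card (alternatingGroup (Fin 5)) = 120 := by
    rw [card_alt 5 (by norm_num)]; rfl
  have hcard' : Nat.card (alternatingGroup (Fin 5)) = 60 := by omega
  have hmul := K.card_mul_index
  rw [hcard'] at hmul
  have h30 : 30 ∣ Nat.card K := by
    have h6 : 6 ∣ Nat.card K := Nat.Coprime.mul_dvd_of_dvd_of_dvd (by norm_num : Nat.Coprime 2 3) d2 d3
    exact Nat.Coprime.mul_dvd_of_dvd_of_dvd (by norm_num : Nat.Coprime 6 5) h6 d5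
  obtain ⟨k, hk⟩ := h30
  have hkpos : k * K.index = 2 := by
    rw [hk] at hmul
    have : 30 * (k * K.index) = 30 * 2 := by rw [← mul_assoc]; exact hmul
    exact Nat.eq_of_mul_eq_mul_left (by norm_num) this
  have hidx : K.index = 1 ∨ K.index = 2 := (Nat.dvd_prime Nat.prime_two).1 ⟨k, by rw [mul_comm]; exact hkpos.symm⟩
  rcases hidx with h | h
  · exact Subgroup.index_eq_one.1 h
  · exfalso
    have hn : K.Normal := Subgroup.normal_of_index_eq_two h
    have : IsSimpleGroup (alternatingGroup (Fin 5)) := alternatingGroup.isSimpleGroup (by simp)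
    rcases hn.eq_bot_or_eq_top with h1 | h1
    · rw [h1] at ha
      exact a5_ne (Subgroup.mem_bot.1 ha)
    · rw [h1, Subgroup.index_top] at h
      omega

/-! ### homomorphisms -/

lemma range_lift {G : Type} [Group G] (ξ η ζ : G) :
    (FreeGroup.lift ![ξ, η, ζ] : F →* G).range = Subgroup.closure {ξ, η, ζ} := by
  rw [FreeGroup.range_lift_eq_closure]
  congr 1
  ext g
  simp only [Set.mem_range, Set.mem_insert_iff, Set.mem_singleton_iff, Fin.exists_fin_succ]
  simp [eq_comm]

lemma lift_xyz {G : Type} [Group G] (ξ η ζ : G) :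
    FreeGroup.lift ![ξ, η, ζ] xyz = ξ * η * ζ := by
  simp [xyz]

lemma eq_lift {G : Type} [Group G] (f : F →* G) :
    f = FreeGroup.lift ![f (FreeGroup.of 0), f (FreeGroup.of 1), f (FreeGroup.of 2)] := by
  apply FreeGroup.ext_hom
  intro i
  fin_cases i <;> simp

lemma symm_pure {φ : F ≃* F} (h : IsPureSymmetric φ) : IsPureSymmetric φ.symm := by
  intro i
  obtain ⟨c, hc⟩ := isConj_iff.1 (h i)
  refine isConj_iff.2 ⟨(φ.symm c)⁻¹, ?_⟩
  have := congrArg φ.symm hc
  rw [map_mul, map_mul, map_inv, φ.symm_apply_apply] at this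
  rw [inv_inv]
  calc (φ.symm c)⁻¹ * FreeGroup.of i * φ.symm c
      = (φ.symm c)⁻¹ * (φ.symm c * φ.symm (FreeGroup.of i) * (φ.symm c)⁻¹) * φ.symm c := by
        rw [this]
    _ = φ.symm (FreeGroup.of i) := by group

/-- admissibility in terms of homomorphisms `F → A_n` -/
lemma admissible_iff (u : F) (n : ℕ) : Admissible 2 3 5 u n ↔
    3 ≤ n ∧ ∃ f : F →* alternatingGroup (Fin n), Function.Surjective f ∧
      f (FreeGroup.of 0) ^ 2 = 1 ∧ f (FreeGroup.of 1) ^ 3 = 1 ∧ f (FreeGroup.of 2) ^ 5 = 1 ∧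
      f (xyz * u) = 1 := by
  constructor
  · rintro ⟨hn, ξ, η, ζ, hcl, h2, h3, h5, hw⟩
    refine ⟨hn, FreeGroup.lift ![ξ, η, ζ], ?_, by simpa using h2, by simpa using h3,
      by simpa using h5, ?_⟩
    · rw [← MonoidHom.range_eq_top, range_lift, hcl]
    · rw [map_mul, lift_xyz, hw]
  · rintro ⟨hn, f, hs, h2, h3, h5, hw⟩
    refine ⟨hn, f (FreeGroup.of 0), f (FreeGroup.of 1), f (FreeGroup.of 2), ?_, h2, h3, h5, ?_⟩
    · rw [← range_lift, ← eq_lift, MonoidHom.range_eq_top]
      exact hs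
    · rw [← eq_lift, ← hw, map_mul]
      simp [xyz]

lemma pow_of_conj {G : Type} [Group G] (f : F →* G) {g h : F} (hc : IsConj g h) {k : ℕ}
    (hk : f g ^ k = 1) : f h ^ k = 1 := by
  obtain ⟨c, rfl⟩ := isConj_iff.1 hc
  rw [map_mul, map_mul, map_inv, conj_pow, hk, mul_one, mul_inv_cancel]

lemma admissible_word {φ : F ≃* F} (h : IsPureSymmetric φ) (n : ℕ) :
    Admissible 2 3 5 (word φ) n ↔ Admissible 2 3 5 1 n := by
  rw [admissible_iff, admissible_iff]
  constructor
  · rintro ⟨hn, f, hs, h2, h3, h5, hw⟩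
    refine ⟨hn, f.comp φ.toMonoidHom, ?_, pow_of_conj f (h 0) h2, pow_of_conj f (h 1) h3,
      pow_of_conj f (h 2) h5, ?_⟩
    · exact hs.comp φ.surjective
    · rw [word, mul_inv_cancel_left] at hw
      rw [mul_one]
      exact hw
  · rintro ⟨hn, f, hs, h2, h3, h5, hw⟩
    have h' := symm_pure h
    refine ⟨hn, f.comp φ.symm.toMonoidHom, ?_, pow_of_conj f (h' 0) h2, pow_of_conj f (h' 1) h3,
      pow_of_conj f (h' 2) h5, ?_⟩
    · exact hs.comp φ.symm.surjective
    · rw [mul_one] at hw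
      rw [word, mul_inv_cancel_left]
      show f (φ.symm (φ xyz)) = 1
      rw [φ.symm_apply_apply, hw]

lemma admissible_one (n : ℕ) : Admissible 2 3 5 1 n ↔ n = 5 := by
  constructor
  · rintro ⟨hn, ξ, η, ζ, hcl, h2, h3, h5, hw⟩
    rw [map_one, mul_one] at hw
    exact eq_five_of_triple hn ξ η ζ hcl h2 h3 h5 hw
  · rintro rfl
    refine ⟨by norm_num, a5, b5, c5, closure5, a5_sq, b5_cube, c5_five, ?_⟩
    rw [map_one, mul_one, c5, mul_inv_cancel]

lemma word_mem {φ : F ≃* F} (h : IsPureSymmetric φ) : word φ ∈ commutator F := by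
  rw [← Abelianization.ker_of, MonoidHom.mem_ker, word, map_mul, map_inv, inv_mul_eq_one]
  have key : ∀ i : Fin 3, Abelianization.of (φ (FreeGroup.of i)) =
      Abelianization.of (FreeGroup.of i) := by
    intro i
    obtain ⟨c, hc⟩ := isConj_iff.1 (h i)
    rw [← hc, map_mul, map_mul, map_inv, mul_comm (Abelianization.of c), mul_inv_cancel_right]
  rw [xyz, map_mul, map_mul, map_mul, map_mul, map_mul, map_mul, key, key, key]

/-- the inner automorphisms are pure symmetric -/
lemma inner_pure (g : F) : IsPureSymmetric (MulAut.conj g) := by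
  intro i
  exact isConj_iff.2 ⟨g, rfl⟩

/-- an action of `F` on the integers: `x` translates by one, `y` is trivial, `z` is negation -/
def act : F →* Equiv.Perm ℤ := FreeGroup.lift ![Equiv.addRight 1, 1, Equiv.neg ℤ]

lemma act_pow (k : ℕ) (m : ℤ) : act ((FreeGroup.of 0 : F) ^ k) m = m + k := by
  induction k generalizing m with
  | zero => simp
  | succ k ih =>
    rw [pow_succ, map_mul, Equiv.Perm.mul_apply, ih]
    simp [act]
    ring

lemma act_pow_inv (k : ℕ) (m : ℤ) : act (((FreeGroup.of 0 : F) ^ k)⁻¹) m = m - k := by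
  rw [map_inv, Equiv.Perm.inv_eq_iff_eq, act_pow]
  ring

lemma act_xyz (m : ℤ) : act xyz m = 1 - m := by
  simp [act, xyz]
  ring

lemma infinite_words : {u : F | ∃ φ : F ≃* F, IsPureSymmetric φ ∧ u = word φ}.Infinite := by
  have hinj : Function.Injective
      (fun k : ℕ => word (MulAut.conj ((FreeGroup.of 0 : F) ^ k))) := by
    intro k l hkl
    simp only [word, mul_right_inj, MulAut.conj_apply] at hkl
    have h := congrArg (fun t => act t 0) hkl
    simp only [map_mul, Equiv.Perm.mul_apply, act_pow_inv, act_xyz, act_pow] at h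
    omega
  exact Set.infinite_of_injective_forall_mem hinj
    (fun k => ⟨_, inner_pure _, rfl⟩)

/-- **Theorem.**  Let `p, q, r = 2, 3, 5`.  For every automorphism `φ` of `F(x, y, z)` sending each
of `x, y, z` to a conjugate of itself, the word `u = (x y z)⁻¹ φ(x y z)` is a commutator word, and
`n` is admissible for `2, 3, 5, u` if and only if `n = 5`.  There are infinitely many such words
`u`, the trivial word among them. -/
theorem result :
    (∀ φ : F ≃* F, IsPureSymmetric φ →
      word φ ∈ commutator F ∧ ∀ n : ℕ, Admissible 2 3 5 (word φ) n ↔ n = 5) ∧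
    (∀ n : ℕ, Admissible 2 3 5 1 n ↔ n = 5) ∧
    {u : F | ∃ φ : F ≃* F, IsPureSymmetric φ ∧ u = word φ}.Infinite :=
  ⟨fun φ hφ => ⟨word_mem hφ, fun n => (admissible_word hφ n).trans (admissible_one n)⟩,
    admissible_one, infinite_words⟩

end Pool.Agent.Results.MP_73c65d_al.FinitelyManyDegrees
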